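import Pool.Agent.Helper76.CV.Goals

set_option autoImplicit false

namespace Pool.Agent.Helper38.CV.PRB

open Pool.Agent.Helper76.CV

lemma sum3 {r : ℕ} (f : Fin (r + 3) → ℝ) :
    ∑ i, f i = f 0 + (f 1 + (f 2 + ∑ j : Fin r, f j.succ.succ.succ)) := by
  rw [Fin.sum_univ_succ, Fin.sum_univ_succ, Fin.sum_univ_succ]
  rfl

lemma ext3 {r : ℕ} {y z : E (r + 3)} (h0 : y 0 = z 0) (h1 : y 1 = z 1) (h2 : y 2 = z 2)
    (h3 : ∀ j : Fin r, y j.succ.succ.succ = z j.succ.succ.succ) : y = z := by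
  ext i
  refine Fin.cases h0 (fun i => ?_) i
  refine Fin.cases h1 (fun i => ?_) i
  refine Fin.cases h2 (fun i => ?_) i
  exact h3 i

/-- the projection in coordinates -/
noncomputable def pf {r : ℕ} (A : Fin r → Bool) (y : E (r + 3)) : E (r + 3) :=
  WithLp.toLp 2 (Fin.cons (y 0) (Fin.cons (12 / 13 * ((12 * y 1 + 5 * y 2) / 13))
    (Fin.cons (5 / 13 * ((12 * y 1 + 5 * y 2) / 13))
      (fun j => (1 - (if A j then (1 : ℝ) else 0)) * y j.succ.succ.succ))))

variable {r : ℕ} (A : Fin r → Bool) (y : E (r + 3))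

lemma pf0 : pf A y 0 = y 0 := rfl
lemma pf1 : pf A y 1 = 12 / 13 * ((12 * y 1 + 5 * y 2) / 13) := rfl
lemma pf2 : pf A y 2 = 5 / 13 * ((12 * y 1 + 5 * y 2) / 13) := rfl
lemma pf3 (j : Fin r) : pf A y j.succ.succ.succ =
    (1 - (if A j then (1 : ℝ) else 0)) * y j.succ.succ.succ := rfl

/-- the same as a linear map -/
noncomputable def pl : E (r + 3) →ₗ[ℝ] E (r + 3) where
  toFun := pf A
  map_add' := by
    intro x y
    apply ext3
    · rfl
    · simp only [pf1, PiLp.add_apply]; ring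
    · simp only [pf2, PiLp.add_apply]; ring
    · intro j; simp only [pf3, PiLp.add_apply]; ring
  map_smul' := by
    intro c x
    apply ext3
    · rfl
    · simp only [pf1, PiLp.smul_apply, smul_eq_mul, RingHom.id_apply]; ring
    · simp only [pf2, PiLp.smul_apply, smul_eq_mul, RingHom.id_apply]; ring
    · intro j; simp only [pf3, PiLp.smul_apply, smul_eq_mul, RingHom.id_apply]; ring

/-- the vector `b` -/
noncomputable def bv (r : ℕ) : E (r + 3) :=
  WithLp.toLp 2 (Fin.cons 0 (Fin.cons (24 / 65) (Fin.cons (2 / 13) (fun _ => 0))))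

lemma bv0 : bv r 0 = 0 := rfl
lemma bv1 : bv r 1 = 24 / 65 := rfl
lemma bv2 : bv r 2 = 2 / 13 := rfl
lemma bv3 (j : Fin r) : bv r j.succ.succ.succ = 0 := rfl

lemma nsq (y : E (r + 3)) : ‖y‖ ^ 2 =
    y 0 ^ 2 + (y 1 ^ 2 + (y 2 ^ 2 + ∑ j : Fin r, y j.succ.succ.succ ^ 2)) := by
  rw [EuclideanSpace.real_norm_sq_eq, sum3]

lemma form : ((12 * y 1 + 5 * y 2) / 13 - 2 / 5) ^ 2 + (y 0) ^ 2 +
    ∑ j : Fin r, (1 - (if A j then (1 : ℝ) else 0)) * (y j.succ.succ.succ) ^ 2 =
      ‖pf A y - bv r‖ ^ 2 := by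
  rw [nsq]
  simp only [PiLp.sub_apply, pf0, pf1, pf2, pf3, bv0, bv1, bv2, bv3]
  have h : ∀ j : Fin r, ((1 - (if A j then (1 : ℝ) else 0)) * y j.succ.succ.succ - 0) ^ 2 =
      (1 - (if A j then (1 : ℝ) else 0)) * (y j.succ.succ.succ) ^ 2 := by
    intro j
    split_ifs <;> ring
  simp only [h]
  ring

theorem t : PRB := by
  intro r A
  refine ⟨LinearMap.toContinuousLinearMap (pl A), bv r, ?_, ?_, ?_, ?_, ?_, ?_⟩
  · intro u v
    show inner ℝ (pf A u) v = inner ℝ u (pf A v)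
    simp only [PiLp.inner_apply, sum3, pf0, pf1, pf2, pf3, real_inner_eq_re_inner, RCLike.inner_apply,
      RCLike.re_to_real, conj_trivial]
    have h : ∀ j : Fin r, v j.succ.succ.succ * ((1 - (if A j then (1 : ℝ) else 0)) * u j.succ.succ.succ) =
        (1 - (if A j then (1 : ℝ) else 0)) * v j.succ.succ.succ * u j.succ.succ.succ := by
      intro j; ring
    simp only [h]
    ring
  · intro u
    show pf A (pf A u) = pf A u
    apply ext3
    · rfl
    · simp only [pf1, pf2]; ring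
    · simp only [pf1, pf2]; ring
    · intro j
      simp only [pf3]
      split_ifs <;> ring
  · show pf A (bv r) = bv r
    apply ext3
    · rfl
    · simp only [pf1, bv1, bv2]; norm_num
    · simp only [pf2, bv1, bv2]; norm_num
    · intro j
      simp only [pf3, bv3, mul_zero]
  · have h := nsq (bv r)
    simp only [bv0, bv1, bv2, bv3] at h
    have h2 : ‖bv r‖ ^ 2 = (2 / 5) ^ 2 := by
      rw [h]
      norm_num
    exact (pow_left_inj₀ (norm_nonneg _) (by norm_num) (by norm_num)).1 h2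
  · intro y
    exact form A y
  · intro y
    show |y 0| ≤ ‖pf A y - bv r‖
    apply abs_le_of_sq_le_sq _ (norm_nonneg _)
    rw [← form A y]
    have h : 0 ≤ ∑ j : Fin r, (1 - (if A j then (1 : ℝ) else 0)) * (y j.succ.succ.succ) ^ 2 := by
      apply Finset.sum_nonneg
      intro j _
      split_ifs
      · simp
      · simp; positivity
    nlinarith [sq_nonneg ((12 * y 1 + 5 * y 2) / 13 - 2 / 5)]

end Pool.Agent.Helper38.CV.PRB
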